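import Mathlib
import Pool.Agent.H.MP_8387fc_lc.BA.Final

/-!
Turing invariant functions whose values have few candidates.

A real is a function `x : ℕ → Bool`, and `Red y x` means that `y` is Turing reducible to `x`
(Mathlib's `TuringReducible`, for the characteristic functions). `Phi e x n` is the output of the
functional with index `e` for the oracle `x` and the input `n`, in the standard numbering by
programs which read initial segments of the oracle; `Via e x y` means that `x` computes `y` via `e`
(so `Red y x` holds if and only if `Via e x y` for some `e`: this is `red_iff`), and `Enum e x σ`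
means that the string `σ` is an output of the functional `e` for the oracle `x`. `deg x` is the
Turing degree of `x`, `cone b` is the Turing cone above `b`, `join x y` is the join, and `pre x L`
is the initial segment of `x` of length `L`.

Bounded ambiguity. `AmbiguousIn a K S f`: for each length `L` there is a function `U`, computable in
`a`, such that, if `x, y` in `S` are Turing equivalent via `(i, j)`, then the functional `U i j`
with oracle `f x` enumerates at most `K` strings of length `L`, and the initial segment of length
`L` of `f y` is one of them. Uniformly Turing invariant functions have ambiguity `K = 1`; functions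
for which `f x` computes `f y` via one of at most `K` indices in a list `U i j` have ambiguity `K`
(`ambiguous_of_lists`); every `U` is computable in some real `a` (`exists_oracle`).

Finite ambiguity. `ShiftUniform S f`: for `z` in `S` and each bit `b` the reals `f z` and `f (b z)`
compute each other via indices which depend only on `b`. `PairBounded K i j S f`: there is one list
of at most `K` indices such that, if `x, y` in `S` are Turing equivalent via the one pair `(i, j)`,
then `f x` computes `f y` via one of them. For shift uniform functions this replaces bounded
ambiguity: nothing has to be computable, bounded or finite for the other pairs of indices.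

`FewAnswers i j a K S f x`: the function `f` has ambiguity at most `K` on `S ∩ deg x`, relative to
some real `u` computable from `f x ⊕ a` (which may depend on the degree), or it is shift uniform on
`deg x` and `PairBounded K i j` holds there.
-/

namespace Pool.Agent.Results.MP_8387fc_lc.BoundedAmbiguity

open Pool.Agent.H.MP_8387fc_lc.BA
open Pool.Agent.H.MP_95c08c_lc (pre)

/-- There is one pair `(i, j)` of indices with the following properties.

1. If `x` is in `S` and `FewAnswers i j a K S f x` holds, then `x ≤_T f(x) ⊕ a` (and `x ≤_T f(x)` if
`a` is computable) or `f` takes at most `K` values on `S ∩ deg x`.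

2. This is exact: if `f` maps a subset `S` of a degree into a degree and `x ≤_T f(x) ⊕ a` for no `x`
in `S`, then `AmbiguousIn a K S f` holds if and only if `f` takes at most `K` values on `S`.

3. Consequence: let `Γ` be a class of sets of reals with Turing determinacy, let `f` be Turing
invariant on a cone, let `S` be a set of reals which meets every degree in the cone, and suppose
that there are cofinally many `x` such that `FewAnswers i j a K S f x` holds for some `K`. If the
sets of reals named in the statement are in `Γ` then either `x ≤_T f(x) ⊕ a` on a cone (and
`x ≤_T f(x)` on a cone if `a` is computable), or `f(x) ≡_T c` on a cone for one real `c`. -/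
theorem result : ∃ i j : ℕ,
    (∀ (a : ℕ → Bool) (K : ℕ) (S : Set (ℕ → Bool)) (f : (ℕ → Bool) → ℕ → Bool), ∀ x ∈ S,
      FewAnswers i j a K S f x →
        (Red x (join (f x) a) ∧ (Computable a → Red x (f x))) ∨
          (f '' (S ∩ deg x)).encard ≤ K) ∧
    (∀ (a : ℕ → Bool) (K : ℕ) (x : ℕ → Bool) (S : Set (ℕ → Bool))
      (f : (ℕ → Bool) → ℕ → Bool), S ⊆ deg x → (∀ y ∈ S, ∀ z ∈ S, f z ∈ deg (f y)) →
      (∀ y ∈ S, ¬ Red y (join (f y) a)) → (AmbiguousIn a K S f ↔ (f '' S).encard ≤ K)) ∧
    ∀ Γ : Set (Set (ℕ → Bool)), TuringDetermined Γ →
      ∀ (a b : ℕ → Bool) (S : Set (ℕ → Bool)) (f : (ℕ → Bool) → ℕ → Bool),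
        (∀ x ∈ cone b, ∀ y ∈ deg x, f y ∈ deg (f x)) →
        (∀ x ∈ cone b, (S ∩ deg x).Nonempty) →
        (∀ c, ∃ x ∈ cone c, ∃ K, FewAnswers i j a K S f x) →
        {x | x ∈ cone b ∧ Red x (join (f x) a)} ∈ Γ →
        (∀ σ : List Bool,
          {x | x ∈ cone b ∧ ∃ y ∈ S ∩ deg x, pre (f y) σ.length = σ} ∈ Γ) →
        (∃ b', ∀ x ∈ cone b', Red x (join (f x) a) ∧ (Computable a → Red x (f x))) ∨
          ∃ c b', ∀ x ∈ cone b', f x ∈ deg c :=
  final

end Pool.Agent.Results.MP_8387fc_lc.BoundedAmbiguity
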