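import Pool.Agent.H.MP_8387fc_lc.TJ.HullK

/-!
Functions of the Turing degrees whose hulls are closed under joins, up to a function `K`.

Reals are the elements of `2 ^ ω`, `Le` and `Eqv` are Turing reducibility and Turing equivalence, `jn x y` is the join
`x ⊕ y`, and `UM f` says that `f` is universally measurable. Let `f` be universally measurable, and Turing invariant above a
real `b`. Let `f` be weakly order preserving above `b`, with a universally measurable modulus `g`: `f x ≤_T f y` for all
`x, y ≥_T b` with `y ≥_T g x`. Order preserving functions (`g x = x`) and increasing functions (`x ≤_T f x`, `g = f`) are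
weakly order preserving. Let `K` be an arbitrary function, and assume that for `x₁, x₂, y` above `b`

  `f x₁ ≤_T f y` and `f x₂ ≤_T f y` imply `f (x₁ ⊕ x₂) ≤_T K (f y)`.

For `K x = x` this says that the hulls `{x | f x ≤_T f y}` are closed under joins. Then `f` is constant on a cone, or
`x ≤_T f x` and `f (f x) ≤_T K (f x)` on a cone; in the second case `x ≤_T f x ≤_T K x` for cofinally many `x`, and for all `x`
in a cone if the set `{x | f x ≤_T K x}` contains or is disjoint from a cone (which follows from AD, if `K` is Turing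
invariant), or if `K` is Turing invariant and `f (x ⊕ y) ≤_T K (x ⊕ y ⊕ f x ⊕ f y)` for all `x, y` above `b`. No determinacy is
assumed. In particular (`K x = x`) the join homomorphisms are constant or the identity on a cone.

If `K` is order preserving and `x ≤_T f x ≤_T K x` above `b`, then the implication above holds: `x₁ ⊕ x₂ ≤_T f y`, hence
`f (x₁ ⊕ x₂) ≤_T K (x₁ ⊕ x₂) ≤_T K (f y)`. So, under AD, the implication characterises the increasing functions below `K`.

Method. Let `f` be universally measurable. There is a real `c` such that every real `v` above `c` is the join of two reals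
`u₁, u₂` above `b` with `f u₁ ≤_T v` and `f u₂ ≤_T v` (`low_join`). Apply this to `v = f x` (or to `v = x`, in the last case).
A weakly order preserving function such that all fibres of `z ↦ f (b ⊕ z)` are null is increasing on a cone: there is a perfect
set on which it is injective and its modulus is low, and a real can be coded into values of `f` on the perfect set. If some
fibre is not null, then a zero-one law shows that `f` is bounded.
-/

set_option autoImplicit false

namespace Pool.Agent.Results.MP_8387fc_lc.ClosedHulls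

open MeasureTheory Pool.Agent.TJ

/-- `f` is Turing invariant above `b`. -/
def Invariant (f : Rl → Rl) (b : Rl) : Prop := ∀ x y, Le b x → Eqv x y → Eqv (f x) (f y)

/-- Above `b`, the value `f x` is computable from all values `f y` with `y ≥_T g x`. -/
def WeaklyPreserves (f g : Rl → Rl) (b : Rl) : Prop :=
  ∀ x y, Le b x → Le b y → Le (g x) y → Le (f x) (f y)

/-- Above `b` the hulls `{x | f x ≤_T f y}` are closed under joins, up to `K`. -/
def KClosedHulls (f K : Rl → Rl) (b : Rl) : Prop :=
  ∀ x₁ x₂ y, Le b x₁ → Le b x₂ → Le b y → Le (f x₁) (f y) → Le (f x₂) (f y) →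
    Le (f (jn x₁ x₂)) (K (f y))

/-- `f (x ⊕ y) ≤_T K (x ⊕ y ⊕ f x ⊕ f y)` above `b`. -/
def Subadditive (f K : Rl → Rl) (b : Rl) : Prop :=
  ∀ x y, Le b x → Le b y → Le (f (jn x y)) (K (jn (jn x y) (jn (f x) (f y))))

/-- `f` is constant on a cone. -/
def ConstantOnCone (f : Rl → Rl) : Prop := ∃ c d, ∀ x, Le c x → Eqv (f x) d

/-- The set `A` contains or is disjoint from a cone. -/
def Decided (A : Set Rl) : Prop := (∃ c, ∀ x, Le c x → x ∈ A) ∨ ∃ c, ∀ x, Le c x → x ∉ A

theorem result {f g : Rl → Rl} (hf : UM f) (hg : UM g) (K : Rl → Rl) (b : Rl)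
    (hTI : Invariant f b) (h : WeaklyPreserves f g b) (hC : KClosedHulls f K b) :
    ConstantOnCone f ∨
      (∃ c, ∀ x, Le c x → Le x (f x) ∧ Le (f (f x)) (K (f x))) ∧
        (∀ y, ∃ x, Le y x ∧ Le x (f x) ∧ Le (f x) (K x)) ∧
        (Invariant K b ∧ Subadditive f K b ∨ Decided {x | Le (f x) (K x)} →
          ∃ c, ∀ x, Le c x → Le x (f x) ∧ Le (f x) (K x)) := by
  rcases partHK (K := K) hf hg hTI h hC with h1 | ⟨c, hc⟩
  · exact Or.inl h1
  · right
    have h2 : ∀ y, ∃ x, Le y x ∧ Le x (f x) ∧ Le (f x) (K x) := by
      intro y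
      obtain ⟨k1, k2⟩ := hc (jn y c) (jn_r y c)
      exact ⟨f (jn y c), (jn_l y c).trans k1, (hc _ ((jn_r y c).trans k1)).1, k2⟩
    refine ⟨⟨c, hc⟩, h2, ?_⟩
    have h3 : (∃ c', ∀ x, Le c' x → Le (f x) (K x)) →
        ∃ c, ∀ x, Le c x → Le x (f x) ∧ Le (f x) (K x) := by
      rintro ⟨c', hc'⟩
      exact ⟨jn c c', fun x hx => ⟨(hc x ((jn_l _ _).trans hx)).1, hc' x ((jn_r _ _).trans hx)⟩⟩
    rintro (⟨hK, hS⟩ | hd | ⟨c', hc'⟩)
    · exact h3 (subK hf hTI hK hS)
    · exact h3 hd
    · obtain ⟨x, hx, -, hx'⟩ := h2 c'
      exact absurd hx' (hc' x hx)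

end Pool.Agent.Results.MP_8387fc_lc.ClosedHulls
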