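import Pool.Agent.H.MP_8387fc_lc.TJ.PartE

/-!
Values at joins cannot be decomposed.

Reals are the elements of `2 ^ ω`, `Le` and `Eqv` are Turing reducibility and Turing equivalence, `jn x y` is the join
`x ⊕ y`, `js x` is the join of a sequence of reals, `sj S x` the join of the reals `x i`, `i ∈ S`, and `UM g` says that `g` is
universally measurable.

Let `f` and `H` be arbitrary functions of the reals. Assume one of the following two conditions, for some real `b`.

* For all `x, y` above `b` the value `f (x ⊕ y)` is computable from `H (x ⊕ y) ⊕ g₁ x ⊕ g₂ y`, where `g₁` and `g₂` are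
  universally measurable.
* For all `x i` above `b`, `i ∈ U`, with join `X`, the value `f X` is computable from `H X` and the values of countably many
  universally measurable functions `g m` at the joins of the `x i`, `i ∈ S m`, over proper subsets `S m` of `U`.

Then the set `A` of all `x` with `f x ≤_T H x ⊕ x` meets all Turing degrees of a cone. So `A` contains a cone if `A` is Turing
invariant, for instance if `f` and `H` are Turing invariant. The outer reducibility may be replaced by every coarser
reducibility, for instance arithmetical or hyperarithmetical reducibility or relative constructibility. No determinacy is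
assumed.

Under AD all functions are universally measurable. So a Turing invariant function `f` satisfies `f x ≤_T H x` on a cone, where
`H` is a Turing invariant function above the identity, if and only if `f (x ⊕ y) ≤_T H (x ⊕ y) ⊕ g₁ x ⊕ g₂ y` on a cone for
some functions `g₁` and `g₂`, and if and only if the same is true for infinite joins. For `H x = x` the function `f` is
regressive on a cone, hence, by the theorem of Slaman and Steel, constant or the identity on a cone.

Method. Every real `v` in a cone is, up to Turing equivalence, the join of reals `x i` above `b` such that the values of the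
`g m` at the joins over the sets `S m` are computable from `v`, uniformly in `m` (`low_joins`): the real `v` is hidden in the
parity of random reals, and the random reals are computed from `v` such that they avoid an open set of measure less than `1`
outside of which the values of the `g m` are given by a computable function (relative to a real).
-/

set_option autoImplicit false

namespace Pool.Agent.Results.MP_8387fc_lc.JoinDecompositions

open MeasureTheory Pool.Agent.TJ

/-- `f (x ⊕ y)` is reducible to `H (x ⊕ y) ⊕ g₁ x ⊕ g₂ y`, for `x, y` above `b`. -/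
def PairCondition (Q : Rl → Rl → Prop) (f H : Rl → Rl) (b : Rl) : Prop :=
  ∃ g₁ g₂ : Rl → Rl, UM g₁ ∧ UM g₂ ∧ ∀ x y, Le b x → Le b y →
    Q (f (jn x y)) (jn (H (jn x y)) (jn (g₁ x) (g₂ y)))

/-- The condition for infinite joins. -/
def JoinCondition (Q : Rl → Rl → Prop) (f H : Rl → Rl) (b : Rl) : Prop :=
  ∃ (U : Set ℕ) (S : ℕ → Set ℕ) (g : ℕ → Rl → Rl), (∀ m, S m ⊂ U) ∧ (∀ m, UM (g m)) ∧
    ∀ x : ℕ → Rl, (∀ i ∈ U, Le b (x i)) →
      Q (f (sj U x)) (jn (H (sj U x)) (js fun m => g m (sj (S m) x)))

/-- The set of the `x` for which `f x` is reducible to `H x ⊕ x`. -/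
def Good (Q : Rl → Rl → Prop) (f H : Rl → Rl) : Set Rl := {x | Q (f x) (jn (H x) x)}

theorem result (Q : Rl → Rl → Prop) (hQ : ∀ x y z, Q x y → Le y z → Q x z) (f H : Rl → Rl)
    (b : Rl) (h : PairCondition Q f H b ∨ JoinCondition Q f H b) :
    ∃ c, (∀ v, Le c v → ∃ x, Eqv x v ∧ x ∈ Good Q f H) ∧
      ((∀ x y, Le b x → Eqv x y → x ∈ Good Q f H → y ∈ Good Q f H) →
        ∀ v, Le c v → v ∈ Good Q f H) := by
  have h1 : ∃ c, ∀ v, Le c v → ∃ x, Le b x ∧ Eqv x v ∧ Q (f x) (jn (H x) x) := by
    rcases h with ⟨g₁, g₂, hg₁, hg₂, h⟩ | ⟨U, S, g, hS, hg, h⟩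
    · exact partE2 hQ hg₁ hg₂ b h
    · obtain ⟨u, hu, -⟩ := Set.exists_of_ssubset (hS 0)
      exact partE hQ hg b hu (fun m => (hS m).subset) (fun m => Set.exists_of_ssubset (hS m)) h
  obtain ⟨c, hc⟩ := h1
  refine ⟨c, fun v hv => ?_, fun hI v hv => ?_⟩
  · obtain ⟨x, -, hx, hx'⟩ := hc v hv
    exact ⟨x, hx, hx'⟩
  · obtain ⟨x, hb, hx, hx'⟩ := hc v hv
    exact hI x v hb hx hx'

end Pool.Agent.Results.MP_8387fc_lc.JoinDecompositions
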