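import Pool.Agent.H.MP_8387fc_lc.TJ.RefW

/-!
Weakly order preserving functions: an exact criterion for increasing functions of the Turing degrees.

Reals are the elements of `2 ^ ω`, `Le` is Turing reducibility, and `UM f` says that `f` is universally measurable. A function
`f` is weakly order preserving above `b`, with modulus `g`, if `f x ≤_T f y` for all `x, y ≥_T b` with `y ≥_T g x`: the value
`f x` is computable from `f y` not for all `y` above `x`, but for all `y` in a cone which depends on `x`. Order preserving
functions (`g x = x`) and increasing functions (`g = f`) have this property.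

Let `f` be universally measurable (`f` need not be Turing invariant), and let `I y` be a Turing ideal for every real `y`. The
theorem says that `x ≤_T f x` and `f x ∈ I x` for all `x` in a cone if and only if for some `b` and `g`

* `f` is weakly order preserving above `b`, with modulus `g`;
* `f` is thin: the fibres of `f` above `b` are countable (and `g` is universally measurable), or for some finite measure on the
  cone above `b` the fibres are null sets (and `f` and `g` are measurable);
* for `x, y` above `b`, `f x ≤_T f y` implies `x ∈ I y`.

For `I y = {x | x ≤_T H y}`, where `H` is any function, the third condition implies that the fibres are countable, and the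
theorem is a criterion for `x ≤_T f x ≤_T H x` on a cone. For `H x = x`: an order reflecting and weakly order preserving
function is the identity on a cone, up to Turing equivalence; in particular every order embedding of a cone of the Turing
degrees into the Turing degrees. If `I y` is the set of all reals, the third condition is void, and the theorem is a criterion
for `x ≤_T f x` on a cone. No determinacy is assumed.

Under AD and uniformization a Turing invariant function `f` is weakly order preserving on a cone if and only if, for all `x` in
a cone, `f x ≤_T f y` for cofinally many `y`; if such a function is not thin, then it has only countably many values on a cone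
and is constant on a cone (`constW`). So Part I of Martin's conjecture holds for `f` if and only if `f` is weakly order
preserving on a cone.

Method. There is a perfect set on which `f` is injective and continuous and the modulus `g` is low, and a real can be coded
into the values of `f` on the perfect set. For the upper bound: every real `v` above some `c` is the join of two reals
`u₁, u₂` above `b` with `f u₁ ≤_T v` and `f u₂ ≤_T v` (`low_join`); apply this to `v = f x`.
-/

set_option autoImplicit false

namespace Pool.Agent.Results.MP_8387fc_lc.WeaklyOrderPreserving

open MeasureTheory Pool.Agent.TJ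

/-- Above `b`, the value `f x` is computable from all values `f y` with `y ≥_T g x`. -/
def WeaklyPreserves (f g : Rl → Rl) (b : Rl) : Prop :=
  ∀ x y, Le b x → Le b y → Le (g x) y → Le (f x) (f y)

/-- The fibres of `f` above `b` are countable, and `g` is universally measurable, or for some nonzero finite measure on the
cone above `b` the functions `f` and `g` are measurable and all fibres of `f` are null sets. -/
def Thin (f g : Rl → Rl) (b : Rl) : Prop :=
  (UM g ∧ ∀ d, {x | Le b x ∧ f x = d}.Countable) ∨
    ∃ μ : Measure Rl, IsFiniteMeasure μ ∧ μ ≠ 0 ∧ (∀ᵐ x ∂μ, Le b x) ∧ AEMeasurable f μ ∧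
      AEMeasurable g μ ∧ ∀ d, μ {x | f x = d} = 0

/-- Above `b`, `f x ≤_T f y` implies `x ∈ I y`. -/
def Reflects (f : Rl → Rl) (I : Rl → Set Rl) (b : Rl) : Prop :=
  ∀ x y, Le b x → Le b y → Le (f x) (f y) → x ∈ I y

/-- `J` is closed under Turing reducibility and joins. -/
def TuringIdeal (J : Set Rl) : Prop :=
  (∀ x z, Le x z → z ∈ J → x ∈ J) ∧ ∀ x z, x ∈ J → z ∈ J → jn x z ∈ J

theorem result {f : Rl → Rl} (hf : UM f) {I : Rl → Set Rl} (hI : ∀ y, TuringIdeal (I y)) :
    (∃ c, ∀ x, Le c x → Le x (f x) ∧ f x ∈ I x) ↔
      ∃ g b, WeaklyPreserves f g b ∧ Thin f g b ∧ Reflects f I b := by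
  constructor
  · rintro ⟨c, h⟩
    obtain ⟨μ, h1, h2, h3, h4, h5⟩ := diffuse_of_inc hf fun x hx => (h x hx).1
    refine ⟨f, c, fun x y _ hy hxy => hxy.trans (h y hy).1,
      Or.inr ⟨μ, h1, h2, h3, h4, h4, h5⟩, fun x y hx hy hxy => ?_⟩
    exact (hI y).1 x (f y) ((h x hx).1.trans hxy) (h y hy).2
  · rintro ⟨g, b, hM, hT, hR⟩
    have h1 : ∃ c, Le b c ∧ ∀ x, Le c x → Le x (f x) := by
      rcases hT with ⟨hg, hC⟩ | ⟨μ, h1, h2, h3, h4, h5, h6⟩
      · exact incW_coin hf hg hM fun d => null_of_countable (hC d)
      · exact incW h2 h3 h4 h5 h6 hM
    obtain ⟨c, hbc, hc⟩ := h1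
    obtain ⟨c', hc'⟩ := ideal_le hf hI b hR
    refine ⟨jn c c', fun x hx => ?_⟩
    have h2 : Le x (f x) := hc x ((jn_l _ _).trans hx)
    exact ⟨h2, hc' x (hbc.trans ((jn_l _ _).trans hx)) (((jn_r _ _).trans hx).trans h2)⟩

end Pool.Agent.Results.MP_8387fc_lc.WeaklyOrderPreserving
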